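import Mathlib

/-!
# A superattracting monomial germ of `ℂ³` whose sequence of orders is not linearly recurrent

`f(x, y, z) = (x z, x² y, y² z²)`.
-/

set_option autoImplicit false

namespace Pool.Agent.N288.LR

/-- the degrees of the three components of the iterates -/
def u : ℕ → Fin 3 → ℕ
  | 0 => fun _ => 1
  | k + 1 => ![u k 0 + u k 2, 2 * u k 0 + u k 1, 2 * u k 1 + 2 * u k 2]

/-- the germ -/
def f (v : Fin 3 → ℂ) : Fin 3 → ℂ := ![v 0 * v 2, v 0 ^ 2 * v 1, v 1 ^ 2 * v 2 ^ 2]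

lemma f_smul (k : ℕ) (t : ℂ) (v : Fin 3 → ℂ) (i : Fin 3) :
    f^[k] (t • v) i = t ^ (u k i) * f^[k] v i := by
  induction k generalizing i with
  | zero => simp [u]
  | succ k ih =>
    rw [Function.iterate_succ_apply', Function.iterate_succ_apply']
    fin_cases i <;> simp [f, u, ih] <;> ring

lemma f_one (k : ℕ) : f^[k] (fun _ => 1) = fun _ => 1 := by
  have h : f (fun _ => 1) = fun _ => 1 := by
    funext i; fin_cases i <;> simp [f]
  exact Function.iterate_fixed h k

lemma f_contDiff : ContDiff ℂ ⊤ f := by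
  rw [contDiff_pi]
  intro i
  fin_cases i <;> simp [f] <;> fun_prop

lemma iter_contDiff (k : ℕ) : ContDiff ℂ ⊤ (f^[k]) := by
  induction k with
  | zero => exact contDiff_id
  | succ k ih =>
    rw [Function.iterate_succ']
    exact f_contDiff.comp ih

lemma comp_contDiff (k : ℕ) (i : Fin 3) : ContDiff ℂ ⊤ (fun v => f^[k] v i) :=
  (contDiff_pi.1 (iter_contDiff k)) i

/-- derivatives of the wrong order vanish at the origin -/
lemma deriv_zero (k : ℕ) (i : Fin 3) (m : ℕ) (h : m ≠ u k i) :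
    iteratedFDeriv ℂ m (fun v => f^[k] v i) 0 = 0 := by
  have h1 := (((2 : ℂ) • ContinuousLinearMap.id ℂ (Fin 3 → ℂ))).iteratedFDeriv_comp_right
    (n := ⊤) (comp_contDiff k i) (0 : Fin 3 → ℂ) (i := m) le_top
  have h2 : (fun v => f^[k] v i) ∘ ⇑((2 : ℂ) • ContinuousLinearMap.id ℂ (Fin 3 → ℂ)) =
      ((2 : ℂ) ^ u k i) • (fun v => f^[k] v i) := by
    funext v
    simp [f_smul]
  rw [h2, iteratedFDeriv_const_smul_apply ((comp_contDiff k i).contDiffAt.of_le le_top)] at h1
  ext w
  have h3 := congrArg (fun A => A w) h1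
  simp only [smul_apply, map_zero,
    ContinuousMultilinearMap.compContinuousLinearMap_apply,
    ContinuousLinearMap.id_apply] at h3
  rw [ContinuousMultilinearMap.map_smul_univ] at h3
  simp only [Finset.prod_const, Finset.card_univ, Fintype.card_fin, smul_eq_mul] at h3
  have h4 : ((2 : ℂ) ^ u k i - 2 ^ m) * iteratedFDeriv ℂ m (fun v => f^[k] v i) 0 w = 0 := by
    rw [sub_mul, h3, sub_self]
  rcases mul_eq_zero.1 h4 with h5 | h5
  · exfalso
    apply h
    have h6 : (2 : ℂ) ^ u k i = 2 ^ m := sub_eq_zero.1 h5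
    have h7 : (2 : ℕ) ^ u k i = 2 ^ m := by exact_mod_cast h6
    exact (Nat.pow_right_injective le_rfl h7).symm
  · simpa using h5

/-- the derivative of the right order does not vanish -/
lemma deriv_ne (k : ℕ) (i : Fin 3) :
    iteratedFDeriv ℂ (u k i) (fun v => f^[k] v i) 0 ≠ 0 := by
  intro h0
  let L : ℂ →L[ℂ] (Fin 3 → ℂ) := ContinuousLinearMap.toSpanSingleton ℂ (fun _ => 1)
  have h1 := L.iteratedFDeriv_comp_right
    (n := ⊤) (comp_contDiff k i) (0 : ℂ) (i := u k i) le_top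
  have h2 : (fun v => f^[k] v i) ∘ ⇑L = fun t => t ^ (u k i) := by
    funext t
    simp [L, ContinuousLinearMap.toSpanSingleton_apply, f_smul, f_one]
  rw [h2, map_zero, h0] at h1
  have h3 : iteratedDeriv (u k i) (fun t : ℂ => t ^ (u k i)) 0 = 0 := by
    rw [iteratedDeriv_eq_iteratedFDeriv, h1]
    simp
  rw [iteratedDeriv_pow] at h3
  simp [Nat.descFactorial_self] at h3
  exact Nat.factorial_ne_zero _ h3

lemma iter_ne_iff (k m : ℕ) :
    iteratedFDeriv ℂ m (f^[k]) 0 ≠ 0 ↔ ∃ i, m = u k i := by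
  have key : ∀ i : Fin 3, iteratedFDeriv ℂ m (fun v => f^[k] v i) 0 =
      (ContinuousLinearMap.proj (R := ℂ) (φ := fun _ : Fin 3 => ℂ) i).compContinuousMultilinearMap
        (iteratedFDeriv ℂ m (f^[k]) 0) := by
    intro i
    exact (ContinuousLinearMap.proj (R := ℂ) (φ := fun _ : Fin 3 => ℂ) i).iteratedFDeriv_comp_left
      (n := ⊤) (iter_contDiff k).contDiffAt le_top
  constructor
  · intro h
    by_contra hc
    push Not at hc
    apply h
    ext w i
    have h1 := deriv_zero k i m (hc i)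
    rw [key i] at h1
    have h2 := congrArg (fun A => A w) h1
    simpa using h2
  · rintro ⟨i, rfl⟩ h
    apply deriv_ne k i
    rw [key i, h]
    ext w
    simp

lemma u2_ge (k : ℕ) : u k 0 ≤ u k 2 := by
  induction k with
  | zero => simp [u]
  | succ k ih =>
    simp only [u, Matrix.cons_val_zero, Matrix.cons_val_two, Matrix.tail_cons, Matrix.head_cons]
    omega

/-- the orders of the iterates -/
def c (k : ℕ) : ℕ := min (u k 0) (u k 1)

lemma order_eq (k : ℕ) : sInf {m : ℕ | iteratedFDeriv ℂ m (f^[k]) 0 ≠ 0} = c k := by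
  have h : {m : ℕ | iteratedFDeriv ℂ m (f^[k]) 0 ≠ 0} = {m | ∃ i, m = u k i} := by
    ext m
    exact iter_ne_iff k m
  rw [h]
  apply le_antisymm
  · unfold c
    apply le_min
    · exact Nat.sInf_le ⟨0, rfl⟩
    · exact Nat.sInf_le ⟨1, rfl⟩
  · have hne : ({m | ∃ i, m = u k i} : Set ℕ).Nonempty := ⟨u k 0, 0, rfl⟩
    obtain ⟨i, hi⟩ := Nat.sInf_mem hne
    rw [hi]
    unfold c
    have := u2_ge k
    fin_cases i
    · exact min_le_left _ _
    · exact min_le_right _ _
    · exact (min_le_left _ _).trans this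

/-! ### The difference sequence -/

/-- the difference of the two smallest degrees -/
def D (k : ℕ) : ℤ := (u k 0 : ℤ) - u k 1

lemma D_rec (k : ℕ) : D (k + 2) = D (k + 1) - 2 * D k := by
  simp only [D, u, Matrix.cons_val_zero, Matrix.cons_val_one, Matrix.cons_val_two,
    Matrix.tail_cons, Matrix.head_cons]
  push_cast
  ring

lemma parity (k : ℕ) : u (k + 1) 0 % 2 = 0 ∧ u (k + 1) 1 % 2 = 1 ∧ u (k + 1) 2 % 2 = 0 := by
  induction k with
  | zero => simp [u]
  | succ k ih =>
    obtain ⟨h0, h1, h2⟩ := ih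
    have e0 : u (k + 1 + 1) 0 = u (k + 1) 0 + u (k + 1) 2 := rfl
    have e1 : u (k + 1 + 1) 1 = 2 * u (k + 1) 0 + u (k + 1) 1 := rfl
    have e2 : u (k + 1 + 1) 2 = 2 * u (k + 1) 1 + 2 * u (k + 1) 2 := rfl
    rw [e0, e1, e2]
    omega

/-- the parity of the order tells the sign of the difference -/
lemma c_parity (k : ℕ) (hk : 1 ≤ k) : (c k % 2 = 0 ∧ D k < 0) ∨ (c k % 2 = 1 ∧ 0 < D k) := by
  obtain ⟨k, rfl⟩ : ∃ j, k = j + 1 := ⟨k - 1, by omega⟩
  obtain ⟨h0, h1, -⟩ := parity k
  unfold c D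
  rcases le_total (u (k + 1) 0) (u (k + 1) 1) with h | h
  · left
    rw [min_eq_left h]
    omega
  · right
    rw [min_eq_right h]
    omega

/-- the fundamental sequence -/
def F : ℕ → ℤ
  | 0 => 0
  | 1 => 1
  | k + 2 => F (k + 1) - 2 * F k

lemma F_add_two (k : ℕ) : F (k + 2) = F (k + 1) - 2 * F k := rfl

lemma F_odd (k : ℕ) : F (k + 1) % 2 = 1 ∧ F (k + 2) % 2 = 1 := by
  induction k with
  | zero => simp [F]
  | succ k ih =>
    obtain ⟨h1, h2⟩ := ih
    refine ⟨h2, ?_⟩
    have h3 : F (k + 1 + 2) = F (k + 2) - 2 * F (k + 1) := F_add_two (k + 1)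
    rw [h3]
    omega

lemma F_norm (k : ℕ) : F (k + 1) ^ 2 - F (k + 1) * F k + 2 * F k ^ 2 = 2 ^ k := by
  induction k with
  | zero => simp [F]
  | succ k ih =>
    have h3 : (2 : ℤ) ^ (k + 1) = 2 * 2 ^ k := by ring
    rw [show k + 1 + 1 = k + 2 from rfl, F_add_two, h3, ← ih]
    ring

lemma D_shift (r n : ℕ) : D (n + r) = F r * D (n + 1) + (F (r + 1) - F r) * D n := by
  induction r generalizing n with
  | zero => simp [F]
  | succ r ih =>
    rw [show n + (r + 1) = (n + 1) + r by ring, ih (n + 1), show n + 1 + 1 = n + 2 from rfl,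
      D_rec, show r + 1 + 1 = r + 2 from rfl, F_add_two]
    ring

lemma D_two_shift (r n : ℕ) :
    D (n + r + r) = (2 * F (r + 1) - F r) * D (n + r) - 2 ^ r * D n := by
  have h1 := D_shift r (n + r)
  have h2 : D (n + r + 1) = F (r + 1) * D (n + 1) + (F (r + 2) - F (r + 1)) * D n :=
    D_shift (r + 1) n
  rw [F_add_two] at h2
  have h3 := D_shift r n
  have h4 := F_norm r
  rw [h1, h2, ← h4, h3]
  ring

/-- a positive sequence cannot satisfy a recursion of order two with negative discriminant -/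
lemma no_pos (E : ℕ → ℝ) (t q : ℝ) (hq : t ^ 2 < 4 * q)
    (hE : ∀ i, E (i + 2) = t * E (i + 1) - q * E i) (hpos : ∀ i, 0 < E i) : False := by
  set r : ℕ → ℝ := fun i => E (i + 1) / E i with hr
  have hrpos : ∀ i, 0 < r i := fun i => div_pos (hpos _) (hpos _)
  have hrr : ∀ i, r (i + 1) = t - q / r i := by
    intro i
    have h1 := (hpos i).ne'
    have h2 := (hpos (i + 1)).ne'
    simp only [hr]
    rw [show i + 1 + 1 = i + 2 from rfl, hE i]
    field_simp
  set δ : ℝ := q - t ^ 2 / 4 with hδ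
  have hδ0 : 0 < δ := by rw [hδ]; linarith
  have hstep : ∀ i, r (i + 1) ≤ r i - δ / r i := by
    intro i
    rw [hrr i]
    have h0 := hrpos i
    have h1 : r i - δ / r i - (t - q / r i) = (r i - t / 2) ^ 2 / r i := by
      rw [hδ]
      field_simp
      ring
    have h2 : 0 ≤ (r i - t / 2) ^ 2 / r i := by positivity
    linarith
  have hmono : ∀ i, r i ≤ r 0 := by
    intro i
    induction i with
    | zero => exact le_rfl
    | succ i ih =>
      have := hstep i
      have h2 : 0 < δ / r i := div_pos hδ0 (hrpos i)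
      linarith
  have hlin : ∀ i : ℕ, r i ≤ r 0 - i * (δ / r 0) := by
    intro i
    induction i with
    | zero => simp
    | succ i ih =>
      have h1 := hstep i
      have h2 : δ / r 0 ≤ δ / r i := div_le_div_of_nonneg_left hδ0.le (hrpos i) (hmono i)
      push_cast
      linarith
  obtain ⟨i, hi⟩ := exists_nat_gt (r 0 / (δ / r 0))
  have h1 : 0 < δ / r 0 := div_pos hδ0 (hrpos 0)
  rw [div_lt_iff₀ h1] at hi
  have := hlin i
  have := hrpos i
  linarith

/-- the signs of the differences are not eventually periodic -/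
lemma sign_not_periodic (p r : ℕ) (hr : 1 ≤ r) (hp : 1 ≤ p)
    (h : ∀ j, (c (p + j) : ℕ) % 2 = c (p + r + j) % 2) : False := by
  -- the recursion along multiples of `r`
  have hrec : ∀ i : ℕ, D (p + (i + 2) * r) =
      (2 * F (r + 1) - F r) * D (p + (i + 1) * r) - 2 ^ r * D (p + i * r) := by
    intro i
    have := D_two_shift r (p + i * r)
    rw [show p + (i + 2) * r = p + i * r + r + r by ring,
      show p + (i + 1) * r = p + i * r + r by ring]
    exact this
  have hdisc : (2 * F (r + 1) - F r) ^ 2 < 4 * 2 ^ r := by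
    have h1 := F_norm r
    have h2 : F r ≠ 0 := by
      obtain ⟨s, rfl⟩ : ∃ s, r = s + 1 := ⟨r - 1, by omega⟩
      have := (F_odd s).1
      omega
    have h3 : 0 < F r ^ 2 := by positivity
    nlinarith
  have hdiscR : ((2 * F (r + 1) - F r : ℤ) : ℝ) ^ 2 < 4 * (2 : ℝ) ^ r := by
    exact_mod_cast hdisc
  have hconst : ∀ i : ℕ, c (p + i * r) % 2 = c p % 2 := by
    intro i
    induction i with
    | zero => simp
    | succ i ih =>
      rw [← ih, show p + (i + 1) * r = p + r + i * r by ring, ← h (i * r)]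
  rcases c_parity p hp with ⟨h0, -⟩ | ⟨h0, -⟩
  · have hneg : ∀ i : ℕ, D (p + i * r) < 0 := by
      intro i
      rcases c_parity (p + i * r) (by omega) with ⟨_, h2⟩ | ⟨h1, _⟩
      · exact h2
      · rw [hconst i] at h1
        omega
    refine no_pos (fun i => -(D (p + i * r) : ℝ)) _ _ hdiscR ?_ ?_
    · intro i
      have := hrec i
      have h2 : (D (p + (i + 2) * r) : ℝ) = ((2 * F (r + 1) - F r : ℤ) : ℝ) *
          (D (p + (i + 1) * r) : ℝ) - (2 : ℝ) ^ r * (D (p + i * r) : ℝ) := by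
        rw [this]
        push_cast
        ring
      rw [h2]
      ring
    · intro i
      have h1 : (D (p + i * r) : ℝ) < 0 := by exact_mod_cast hneg i
      linarith
  · have hposi : ∀ i : ℕ, 0 < D (p + i * r) := by
      intro i
      rcases c_parity (p + i * r) (by omega) with ⟨h1, _⟩ | ⟨_, h2⟩
      · rw [hconst i] at h1
        omega
      · exact h2
    refine no_pos (fun i => (D (p + i * r) : ℝ)) _ _ hdiscR ?_ ?_
    · intro i
      have := hrec i
      have h2 : (D (p + (i + 2) * r) : ℝ) = ((2 * F (r + 1) - F r : ℤ) : ℝ) *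
          (D (p + (i + 1) * r) : ℝ) - (2 : ℝ) ^ r * (D (p + i * r) : ℝ) := by
        rw [this]
        push_cast
        ring
      exact h2
    · intro i
      exact_mod_cast hposi i

/-- The sequence `c` satisfies no linear recursion with integer coefficients. -/
lemma no_recursion (d : ℕ) (a : Fin d → ℤ) (K : ℕ)
    (h : ∀ k, K ≤ k → (c (k + d) : ℤ) = ∑ i : Fin d, a i * (c (k + (i : ℕ)) : ℤ)) : False := by
  classical
  let S : ℕ → (Fin d → ZMod 2) := fun k i => (c (k + (i : ℕ)) : ZMod 2)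
  -- two equal states beyond `K + 1`
  obtain ⟨m, n, hmn, hS⟩ : ∃ m n : ℕ, m < n ∧ S (K + 1 + m) = S (K + 1 + n) := by
    obtain ⟨m, n, hne, heq⟩ := Finite.exists_ne_map_eq_of_infinite (fun m : ℕ => S (K + 1 + m))
    rcases lt_or_gt_of_ne hne with h1 | h1
    · exact ⟨m, n, h1, heq⟩
    · exact ⟨n, m, h1, heq.symm⟩
  have hmod : ∀ k, K ≤ k → (c (k + d) : ZMod 2) =
      ∑ i : Fin d, (a i : ZMod 2) * (c (k + (i : ℕ)) : ZMod 2) := by
    intro k hk
    have h1 := congrArg (fun z : ℤ => (z : ZMod 2)) (h k hk)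
    push_cast at h1
    exact h1
  have hall : ∀ j : ℕ, (c (K + 1 + m + j) : ZMod 2) = (c (K + 1 + n + j) : ZMod 2) := by
    intro j
    induction j using Nat.strong_induction_on with
    | _ j ih =>
      by_cases hj : j < d
      · exact congrFun hS ⟨j, hj⟩
      · push Not at hj
        have e1 : K + 1 + m + j = (K + 1 + m + (j - d)) + d := by omega
        have e2 : K + 1 + n + j = (K + 1 + n + (j - d)) + d := by omega
        rw [e1, e2, hmod _ (by omega), hmod _ (by omega)]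
        refine Finset.sum_congr rfl fun i _ => ?_
        congr 1
        have h3 := ih (j - d + (i : ℕ)) (by have := i.2; omega)
        rw [← add_assoc, ← add_assoc] at h3
        exact h3
  refine sign_not_periodic (K + 1 + m) (n - m) (by omega) (by omega) fun j => ?_
  have h1 := hall j
  rw [show K + 1 + m + (n - m) + j = K + 1 + n + j by omega]
  exact (ZMod.natCast_eq_natCast_iff' _ _ _).1 h1

/-! ### The Jacobian -/

lemma hasFDerivAt_f (z : Fin 3 → ℂ) :
    HasFDerivAt f (LinearMap.toContinuousLinearMap (Matrix.toLin'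
      !![z 2, 0, z 0; 2 * z 0 * z 1, z 0 ^ 2, 0; 0, 2 * z 1 * z 2 ^ 2, 2 * z 1 ^ 2 * z 2])) z := by
  rw [hasFDerivAt_pi']
  have hp : ∀ i : Fin 3, HasFDerivAt (fun v : Fin 3 → ℂ => v i)
      (ContinuousLinearMap.proj (R := ℂ) (φ := fun _ : Fin 3 => ℂ) i) z := fun i =>
    (ContinuousLinearMap.proj (R := ℂ) (φ := fun _ : Fin 3 => ℂ) i).hasFDerivAt
  intro i
  fin_cases i
  · have h := (hp 0).mul (hp 2)
    refine h.congr_fderiv ?_
    ext w
    simp [Matrix.toLin'_apply, dotProduct, Fin.sum_univ_three]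
    ring
  · have h := ((hp 0).pow 2).mul (hp 1)
    refine h.congr_fderiv ?_
    ext w
    simp [Matrix.toLin'_apply, dotProduct, Fin.sum_univ_three]
    ring
  · have h := ((hp 1).pow 2).mul ((hp 2).pow 2)
    refine h.congr_fderiv ?_
    ext w
    simp [Matrix.toLin'_apply, dotProduct, Fin.sum_univ_three]
    ring

lemma det_fderiv (z : Fin 3 → ℂ) : (fderiv ℂ f z).det =
    6 * z 0 ^ 2 * z 1 ^ 2 * z 2 ^ 2 := by
  rw [(hasFDerivAt_f z).fderiv]
  rw [ContinuousLinearMap.det]
  rw [LinearMap.coe_toContinuousLinearMap, LinearMap.det_toLin', Matrix.det_fin_three]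
  simp
  ring

lemma f_zero : f 0 = 0 := by
  funext i
  fin_cases i <;> simp [f]

lemma dominant (ε : ℝ) (hε : 0 < ε) : ∃ z : Fin 3 → ℂ, ‖z‖ < ε ∧ (fderiv ℂ f z).det ≠ 0 := by
  refine ⟨fun _ => ((ε / 2 : ℝ) : ℂ), ?_, ?_⟩
  · rw [pi_norm_lt_iff hε]
    intro i
    rw [Complex.norm_real, Real.norm_of_nonneg (by positivity)]
    linarith
  · rw [det_fderiv]
    have : ((ε / 2 : ℝ) : ℂ) ≠ 0 := by exact_mod_cast (by positivity : (ε / 2 : ℝ) ≠ 0)
    have h2 := pow_ne_zero 2 this
    exact mul_ne_zero (mul_ne_zero (mul_ne_zero (by norm_num) h2) h2) h2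

theorem main : ¬ (∀ (n : ℕ) (f : (Fin n → ℂ) → (Fin n → ℂ)),
      AnalyticAt ℂ f 0 → f 0 = 0 →
      (fderiv ℂ f 0).det = 0 →
      (∀ ε : ℝ, 0 < ε → ∃ z : Fin n → ℂ, ‖z‖ < ε ∧ (fderiv ℂ f z).det ≠ 0) →
      ∃ (d : ℕ) (a : Fin d → ℤ) (K : ℕ), ∀ k : ℕ, K ≤ k →
        ((sInf {m : ℕ | iteratedFDeriv ℂ m (f^[k + d]) 0 ≠ 0} : ℕ) : ℤ) =
          ∑ i : Fin d, a i *
            ((sInf {m : ℕ | iteratedFDeriv ℂ m (f^[k + (i : ℕ)]) 0 ≠ 0} : ℕ) : ℤ)) := by
  intro h
  obtain ⟨d, a, K, hrec⟩ := h 3 f (f_contDiff.contDiffAt.analyticAt) f_zero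
    (by rw [det_fderiv]; simp) dominant
  refine no_recursion d a K fun k hk => ?_
  have := hrec k hk
  simp only [order_eq] at this
  exact this

end Pool.Agent.N288.LR
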